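import Pool.Agent.DNS.Rec

set_option autoImplicit false
set_option linter.unusedSectionVars false

/-!
# A priori bounds
-/

namespace Pool.Agent.DNS

open Pool.Agent.BCF Pool.Agent.SCP

variable {V : Type} [Fintype V] [DecidableEq V] {G : SimpleGraph V} [DecidableRel G.Adj]
  {F D : Finset V → Finset V → ℝ} {B C : Finset V} {k : ℕ}

/-- Two nonadjacent vertices of `B` are not both outside `C`. -/
theorem exists_C (cd : Cd G B C k) {T : Finset V} (hTB : T ⊆ B) (h2 : 2 ≤ T.card)
    (hind : ∀ a ∈ T, ∀ b ∈ T, ¬ G.Adj a b) : ∃ x ∈ T, x ∈ C := by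
  obtain ⟨a, ha, b, hb, hab⟩ := Finset.one_lt_card.mp (by omega : 1 < T.card)
  by_contra hcon
  push Not at hcon
  exact hind a ha b hb (cd.clq a (hTB ha) b (hTB hb) (hcon a ha) (hcon b hb) hab)

theorem F_small (fd : FDS G F D) {W T : Finset V} (h : T.card ≤ 1) : F W T = 1 := by
  have h3 : T.card = 0 ∨ T.card = 1 := by omega
  rcases h3 with h3 | h3
  · rw [Finset.card_eq_zero.mp h3]
    exact fd.F_empty _
  · obtain ⟨v, rfl⟩ := Finset.card_eq_one.mp h3
    exact fd.F_single _ v

theorem D_small (fd : FDS G F D) {W T : Finset V} (h : T.card ≤ 1) : D W T = 0 := by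
  have h3 : T.card = 0 ∨ T.card = 1 := by omega
  rcases h3 with h3 | h3
  · rw [Finset.card_eq_zero.mp h3]
    exact fd.D_empty _
  · obtain ⟨v, rfl⟩ := Finset.card_eq_one.mp h3
    exact fd.D_single _ v

theorem step_set (fd : FDS G F D) {W T : Finset V} {x : V} (hxW : x ∈ W) (hxT : x ∈ T)
    (hTW : T ⊆ W) (hne : (T.erase x).Nonempty) (hind : ∀ a ∈ T, ∀ b ∈ T, ¬ G.Adj a b) :
    F W T * ZZ G F W x = ∑ S ∈ (nb G W x).powerset, F (W.erase x) (T.erase x ∪ S) := by
  have h := fd.F_step W x (T.erase x) hxW ((Finset.erase_subset _ _).trans hTW)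
    (Finset.notMem_erase _ _) hne (fun a ha => hind x hxT a (Finset.mem_of_mem_erase ha))
  rw [Finset.insert_erase hxT] at h
  exact h

theorem erase_nonempty {T : Finset V} {x : V} (h2 : 2 ≤ T.card) : (T.erase x).Nonempty := by
  rw [← Finset.card_pos]
  have := Finset.pred_card_le_card_erase (s := T) (a := x)
  omega

/-- Monotonicity. -/
theorem F_mono (fd : FDS G F D) (cd : Cd G B C k) : ∀ n : ℕ, ∀ W : Finset V, W.card = n →
    ∀ T T' : Finset V, T ⊆ T' → T' ⊆ W → T' ⊆ B → F W T' ≤ F W T := by
  intro n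
  induction n with
  | zero =>
    intro W hW T T' hTT hTW _
    have h1 : W = ∅ := Finset.card_eq_zero.mp hW
    subst h1
    have h2 := Finset.subset_empty.mp hTW
    subst h2
    rw [Finset.subset_empty.mp hTT]
  | succ n ih =>
    intro W hW T T' hTT hTW hTB
    by_cases hedge : ∃ a ∈ T', ∃ b ∈ T', G.Adj a b
    · obtain ⟨a, ha, b, hb, hab⟩ := hedge
      rw [fd.F_edge W T' a b hTW ha hb hab]
      exact fd.F_nonneg _ _ (hTT.trans hTW)
    push Not at hedge
    -- the sets of the next level
    have hlevel : ∀ x ∈ T', x ∈ C → ∀ T1 : Finset V, T1 ⊆ T'.erase x →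
        (T'.erase x).Nonempty →
        F W T' * ZZ G F W x ≤ ∑ S ∈ (nb G W x).powerset, F (W.erase x) (T1 ∪ S) := by
      intro x hx hxC T1 hT1 hne
      rw [step_set fd (hTW hx) hx hTW hne hedge]
      refine Finset.sum_le_sum fun S hS => ?_
      rw [Finset.mem_powerset] at hS
      have hcard : (W.erase x).card = n := by
        rw [Finset.card_erase_of_mem (hTW hx), hW]; rfl
      refine ih _ hcard _ _ (Finset.union_subset_union hT1 subset_rfl) ?_ ?_
      · exact Finset.union_subset (Finset.erase_subset_erase _ hTW) (hS.trans nb_sub_erase)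
      · refine Finset.union_subset ((Finset.erase_subset _ _).trans hTB) ?_
        exact hS.trans ((nb_sub_B cd hxC).trans Finset.inter_subset_right)
    by_cases h2 : 2 ≤ T.card
    · obtain ⟨x, hx, hxC⟩ := exists_C cd (hTT.trans hTB) h2
        (fun a ha b hb => hedge a (hTT ha) b (hTT hb))
      have hxT' := hTT hx
      have h2' : 2 ≤ T'.card := h2.trans (Finset.card_le_card hTT)
      have h3 := hlevel x hxT' hxC (T.erase x) (Finset.erase_subset_erase _ hTT)
        (erase_nonempty h2')
      rw [← step_set fd (hTW hxT') hx (hTT.trans hTW) (erase_nonempty h2)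
        (fun a ha b hb => hedge a (hTT ha) b (hTT hb))] at h3
      have hZ := Z_one fd W x
      exact le_of_mul_le_mul_right h3 (by linarith)
    · rw [F_small fd (T := T) (by omega)]
      by_cases h2' : 2 ≤ T'.card
      · obtain ⟨x, hx, hxC⟩ := exists_C cd hTB h2' hedge
        have h3 := hlevel x hx hxC ∅ (Finset.empty_subset _) (erase_nonempty h2')
        simp only [Finset.empty_union] at h3
        have h4 : F W T' * ZZ G F W x ≤ 1 * ZZ G F W x := by
          rw [one_mul]
          exact h3
        have hZ := Z_one fd W x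
        exact le_of_mul_le_mul_right h4 (by linarith)
      · rw [F_small fd (T := T') (by omega)]

theorem F_le_one (fd : FDS G F D) (cd : Cd G B C k) {W T : Finset V} (hTW : T ⊆ W)
    (hTB : T ⊆ B) : F W T ≤ 1 := by
  have h := F_mono fd cd _ W rfl ∅ T (Finset.empty_subset _) hTW hTB
  rwa [fd.F_empty] at h

/-- The relative bound for the derivatives. -/
theorem D_rel (fd : FDS G F D) (cd : Cd G B C k) : ∀ n : ℕ, ∀ W : Finset V,
    (W ∩ C).card = n → ∀ T : Finset V, T ⊆ W → T ⊆ B →
      |D W T| ≤ ((2 : ℝ) ^ n - 1) * F W T := by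
  intro n
  induction n with
  | zero =>
    intro W hW T hTW hTB
    have h1 : W ∩ C = ∅ := Finset.card_eq_zero.mp hW
    by_cases hedge : ∃ a ∈ T, ∃ b ∈ T, G.Adj a b
    · obtain ⟨a, ha, b, hb, hab⟩ := hedge
      rw [fd.F_edge W T a b hTW ha hb hab, fd.D_edge W T a b hTW ha hb hab]
      simp
    push Not at hedge
    by_cases h2 : 2 ≤ T.card
    · exfalso
      obtain ⟨x, hx, hxC⟩ := exists_C cd hTB h2 hedge
      have : x ∈ W ∩ C := Finset.mem_inter.mpr ⟨hTW hx, hxC⟩
      rw [h1] at this
      simp at this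
    · rw [D_small fd (T := T) (by omega)]
      simp
  | succ n ih =>
    intro W hW T hTW hTB
    have ha : (0 : ℝ) ≤ 2 ^ n - 1 := by
      have : (1 : ℝ) ≤ 2 ^ n := one_le_pow₀ (by norm_num)
      linarith
    by_cases hedge : ∃ a ∈ T, ∃ b ∈ T, G.Adj a b
    · obtain ⟨a, ha, b, hb, hab⟩ := hedge
      rw [fd.F_edge W T a b hTW ha hb hab, fd.D_edge W T a b hTW ha hb hab]
      simp
    push Not at hedge
    by_cases h2 : 2 ≤ T.card
    · obtain ⟨x, hx, hxC⟩ := exists_C cd hTB h2 hedge
      have hxW := hTW hx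
      have hcard : ((W.erase x) ∩ C).card = n := by
        have e : (W.erase x) ∩ C = (W ∩ C).erase x := by
          ext a
          simp only [Finset.mem_inter, Finset.mem_erase]
          tauto
        rw [e, Finset.card_erase_of_mem (Finset.mem_inter.mpr ⟨hxW, hxC⟩), hW]
        rfl
      have hNB : ∀ S ∈ (nb G W x).powerset, S ⊆ W.erase x ∧ S ⊆ B := by
        intro S hS
        rw [Finset.mem_powerset] at hS
        exact ⟨hS.trans nb_sub_erase, hS.trans ((nb_sub_B cd hxC).trans
          Finset.inter_subset_right)⟩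
      have hZ := Z_one fd W x
      have hF : 0 ≤ F W T := fd.F_nonneg _ _ hTW
      have hstep := fd.D_step W x (T.erase x) hxW ((Finset.erase_subset _ _).trans hTW)
        (Finset.notMem_erase _ _) (erase_nonempty h2)
        (fun a ha => hedge x hx a (Finset.mem_of_mem_erase ha))
      rw [Finset.insert_erase hx] at hstep
      have hstepF := step_set fd hxW hx hTW (erase_nonempty h2) hedge
      have b1 : |∑ S ∈ (nb G W x).powerset, D (W.erase x) (T.erase x ∪ S)| ≤
          (2 ^ n - 1) * (F W T * ZZ G F W x) := by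
        rw [hstepF, Finset.mul_sum]
        refine (Finset.abs_sum_le_sum_abs _ _).trans (Finset.sum_le_sum fun S hS => ?_)
        obtain ⟨s1, s2⟩ := hNB S hS
        exact ih _ hcard _ (Finset.union_subset (Finset.erase_subset_erase _ hTW) s1)
          (Finset.union_subset ((Finset.erase_subset _ _).trans hTB) s2)
      have b2 : |∑ S ∈ (nb G W x).powerset, D (W.erase x) S| ≤ (2 ^ n - 1) * ZZ G F W x := by
        unfold ZZ
        rw [Finset.mul_sum]
        refine (Finset.abs_sum_le_sum_abs _ _).trans (Finset.sum_le_sum fun S hS => ?_)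
        obtain ⟨s1, s2⟩ := hNB S hS
        exact ih _ hcard _ s1 s2
      have b3 : |D W T| * ZZ G F W x ≤
          (2 ^ n - 1) * (F W T * ZZ G F W x) + F W T * (1 + (2 ^ n - 1) * ZZ G F W x) := by
        have e1 : D W T * ZZ G F W x =
            (∑ S ∈ (nb G W x).powerset, D (W.erase x) (T.erase x ∪ S)) -
              F W T * (1 + ∑ S ∈ (nb G W x).powerset, D (W.erase x) S) := by
          unfold ZZ
          linarith
        calc |D W T| * ZZ G F W x = |D W T * ZZ G F W x| := by
              rw [abs_mul, abs_of_nonneg (zero_le_one.trans hZ)]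
          _ ≤ |∑ S ∈ (nb G W x).powerset, D (W.erase x) (T.erase x ∪ S)| +
              |F W T * (1 + ∑ S ∈ (nb G W x).powerset, D (W.erase x) S)| := by
              rw [e1]
              exact abs_sub _ _
          _ ≤ (2 ^ n - 1) * (F W T * ZZ G F W x) +
              F W T * (1 + (2 ^ n - 1) * ZZ G F W x) := by
              rw [abs_mul, abs_of_nonneg hF]
              refine add_le_add b1 (mul_le_mul_of_nonneg_left ?_ hF)
              exact (abs_add_le _ _).trans (by rw [abs_one]; exact add_le_add le_rfl b2)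
      have b4 : |D W T| * ZZ G F W x ≤ ((2 ^ (n + 1) - 1) * F W T) * ZZ G F W x := by
        refine b3.trans ?_
        have b5 : F W T * 1 ≤ F W T * ZZ G F W x := mul_le_mul_of_nonneg_left hZ hF
        rw [pow_succ]
        nlinarith [b5]
      exact le_of_mul_le_mul_right b4 (by linarith)
    · rw [D_small fd (T := T) (by omega), abs_zero]
      have h3 : (0 : ℝ) ≤ 2 ^ (n + 1) - 1 := by
        have : (1 : ℝ) ≤ 2 ^ (n + 1) := one_le_pow₀ (by norm_num)
        linarith
      exact mul_nonneg h3 (fd.F_nonneg _ _ hTW)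

theorem nn_card (cd : Cd G B C k) {W : Finset V} {y : V} (hy : y ∈ W ∩ B) :
    (nn G (W ∩ B) y).card ≤ k := by
  refine le_trans (Finset.card_le_card ?_) (cd.non y (Finset.mem_inter.mp hy).2)
  intro a ha
  rw [mem_nn] at ha ⊢
  exact ⟨(Finset.mem_inter.mp ha.1).2, ha.2⟩

/-- The a priori bound for the sums of `F`. -/
theorem Ph_apriori (fd : FDS G F D) (cd : Cd G B C k) {W : Finset V} {y : V}
    (hy : y ∈ W ∩ B) : Ph (F W) (W ∩ B) y ≤ 2 ^ k := by
  rw [Ph_insert _ hy]
  have h1 : ∀ T ∈ ((W ∩ B).erase y).powerset, F W (insert y T) ≤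
      if T ⊆ nn G (W ∩ B) y then 1 else 0 := by
    intro T hT
    rw [Finset.mem_powerset] at hT
    have hins : insert y T ⊆ W ∩ B :=
      Finset.insert_subset hy (hT.trans (Finset.erase_subset _ _))
    split_ifs with h
    · exact F_le_one fd cd (hins.trans Finset.inter_subset_left)
        (hins.trans Finset.inter_subset_right)
    · rw [Finset.not_subset] at h
      obtain ⟨a, ha, ha'⟩ := h
      rw [mem_nn] at ha'
      push Not at ha'
      have ha1 := Finset.mem_erase.mp (hT ha)
      have hadj := ha' ha1.2 ha1.1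
      rw [fd.F_edge W (insert y T) y a (hins.trans Finset.inter_subset_left)
        (Finset.mem_insert_self _ _) (Finset.mem_insert_of_mem ha) hadj]
  refine (Finset.sum_le_sum h1).trans ?_
  rw [← Finset.sum_filter, Finset.sum_const, nsmul_eq_mul, mul_one]
  have h2 : ((((W ∩ B).erase y).powerset.filter fun T => T ⊆ nn G (W ∩ B) y).card : ℝ) ≤
      ((nn G (W ∩ B) y).powerset.card : ℝ) := by
    exact_mod_cast Finset.card_le_card fun T hT =>
      Finset.mem_powerset.mpr (Finset.mem_filter.mp hT).2
  refine h2.trans ?_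
  rw [Finset.card_powerset]
  push_cast
  exact pow_le_pow_right₀ (by norm_num) (nn_card cd hy)

end Pool.Agent.DNS
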