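import Pool.Agent.DNS.Num

set_option autoImplicit false
set_option linter.unusedSectionVars false

/-!
# The final comparison
-/

namespace Pool.Agent.DNS

open Pool.Agent.BCF Pool.Agent.SCP

variable {V : Type} [Fintype V] [DecidableEq V] {G : SimpleGraph V} [DecidableRel G.Adj]
  {F D : Finset V → Finset V → ℝ} {B C : Finset V} {k : ℕ}

theorem final (fd : FDS G F D) (cd : Cd G B C k) (hk : 1 ≤ k) (hB : 20 * k ≤ B.card)
    {w u : V} (hw : w ∈ C) (hadj : G.Adj w u) :
    (∑ S ∈ ((nb G Finset.univ w).erase u).powerset, D (Finset.univ.erase w) ({u} ∪ S)) *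
        (∑ S ∈ ((nb G Finset.univ w).erase u).powerset, F (Finset.univ.erase w) S) <
      (∑ S ∈ ((nb G Finset.univ w).erase u).powerset, F (Finset.univ.erase w) ({u} ∪ S)) *
        (1 + ∑ S ∈ ((nb G Finset.univ w).erase u).powerset, D (Finset.univ.erase w) S) := by
  obtain ⟨j, hj⟩ : ∃ j, B.card = 10 * k + j + 1 := ⟨B.card - 10 * k - 1, by omega⟩
  have hwB := cd.CB hw
  have huB := cd.nbr w hw u hadj
  have huw : u ≠ w := hadj.ne'
  have hwW : w ∈ (Finset.univ : Finset V) ∩ B := by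
    rw [Finset.univ_inter]; exact hwB
  have hm : ((Finset.univ : Finset V) ∩ B).card = (10 * k + j) + 1 := by
    rw [Finset.univ_inter, hj]
  have hm0 := card_erase_B hwW hm
  set W := (Finset.univ : Finset V).erase w with hW
  set M := (nb G Finset.univ w).erase u with hM
  have hMnb : M ⊆ nb G Finset.univ w := Finset.erase_subset _ _
  have hnbB : nb G Finset.univ w ⊆ W ∩ B := nb_sub_B cd hw
  have huWB : u ∈ W ∩ B := by
    rw [Finset.mem_inter, hW, Finset.mem_erase]
    exact ⟨⟨huw, Finset.mem_univ _⟩, huB⟩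
  have hMB : M ⊆ (W ∩ B).erase u := by
    intro a ha
    rw [hM, Finset.mem_erase] at ha
    exact Finset.mem_erase.mpr ⟨ha.1, hnbB ha.2⟩
  have hMc : M.card + 1 ≤ 10 * k + j := by
    have h1 := Finset.card_le_card hMB
    rw [Finset.card_erase_of_mem huWB, hm0] at h1
    omega
  set ψ : ℝ := 9 / 4 * k / (9 * k + j) ^ 2 + 2 ^ (10 * k) / 2 / 4 ^ j with hψ
  have hψ0 : 0 ≤ ψ := by positivity
  have hnum : 2 * ((10 : ℝ) * k + j + 1) * ψ < 1 := numeric hk (by omega)
  have hPD := PD_seq fd cd hk j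
  have hPF := PF_late fd cd hk j
  -- the four sums
  have ha : |∑ S ∈ M.powerset, D W ({u} ∪ S)| ≤ ψ := by
    have h1 := hPD W hm0 u huWB
    rw [Ph_insert _ huWB] at h1
    refine (Finset.abs_sum_le_sum_abs _ _).trans (le_trans ?_ h1)
    calc ∑ S ∈ M.powerset, |D W ({u} ∪ S)| = ∑ S ∈ M.powerset, |D W (insert u S)| := by
          refine Finset.sum_congr rfl fun S _ => ?_
          rw [Finset.insert_eq]
      _ ≤ _ := Finset.sum_le_sum_of_subset_of_nonneg (Finset.powerset_mono.mpr hMB)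
          (fun S _ _ => abs_nonneg _)
  have hFn : ∀ S ⊆ W ∩ B, 0 ≤ F W S :=
    fun S hS => fd.F_nonneg _ _ (hS.trans Finset.inter_subset_left)
  have hMWB : M ⊆ W ∩ B := hMnb.trans hnbB
  have hb : ∑ S ∈ M.powerset, F W S ≤ 1 + (M.card : ℝ) * (3 / 2) := by
    have h1 := sum_one_le (f := F W) (M := M) (fun S hS => hFn S (hS.trans hMWB))
    rw [fd.F_empty] at h1
    refine h1.trans (add_le_add le_rfl ?_)
    calc ∑ z ∈ M, Ph (F W) M z ≤ ∑ _z ∈ M, (3 / 2 : ℝ) := by
          refine Finset.sum_le_sum fun z hz => ?_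
          exact (Ph_mono hMWB hFn z).trans (hPF W hm0 z (hMWB hz))
      _ = _ := by rw [Finset.sum_const, nsmul_eq_mul]
  have hb0 : 0 ≤ ∑ S ∈ M.powerset, F W S :=
    Finset.sum_nonneg fun S hS => hFn S ((Finset.mem_powerset.mp hS).trans hMWB)
  have hc : 1 ≤ ∑ S ∈ M.powerset, F W ({u} ∪ S) := by
    calc (1 : ℝ) = F W ({u} ∪ ∅) := by rw [Finset.union_empty, fd.F_single]
      _ ≤ _ := Finset.single_le_sum (f := fun S => F W ({u} ∪ S))
        (fun S hS => hFn _ (Finset.union_subset (Finset.singleton_subset_iff.mpr huWB)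
          ((Finset.mem_powerset.mp hS).trans hMWB)))
        (Finset.empty_mem_powerset _)
  have hd : 1 - ((10 : ℝ) * k + j) / 2 * ψ ≤ 1 + ∑ S ∈ M.powerset, D W S := by
    have h1 := Z'_bound fd cd hPD hψ0 hm hwW hw hMnb
    have h2 := Finset.abs_sum_le_sum_abs (fun S => D W S) M.powerset
    have h3 := neg_abs_le (∑ S ∈ M.powerset, D W S)
    push_cast at h1
    rw [← hW] at h1
    linarith
  set a := ∑ S ∈ M.powerset, D W ({u} ∪ S)
  set b := ∑ S ∈ M.powerset, F W S
  set c := ∑ S ∈ M.powerset, F W ({u} ∪ S)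
  set d := 1 + ∑ S ∈ M.powerset, D W S
  have hMr : (M.card : ℝ) + 1 ≤ 10 * k + j := by exact_mod_cast hMc
  have hMr0 : (0 : ℝ) ≤ M.card := Nat.cast_nonneg _
  have h1 : a * b ≤ ψ * (1 + (M.card : ℝ) * (3 / 2)) := by
    calc a * b ≤ ψ * b := mul_le_mul_of_nonneg_right ((le_abs_self a).trans ha) hb0
      _ ≤ _ := mul_le_mul_of_nonneg_left hb hψ0
  have h2 : ψ * (1 + (M.card : ℝ) * (3 / 2)) ≤ ψ * (3 / 2 * (10 * k + j) - 1 / 2) :=
    mul_le_mul_of_nonneg_left (by linarith) hψ0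
  have hd0 : 0 ≤ d := by
    refine le_trans ?_ hd
    nlinarith
  have h3 : d ≤ c * d := by
    nlinarith
  nlinarith

end Pool.Agent.DNS
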