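import Pool.Agent.DNS.Apr

set_option autoImplicit false
set_option linter.unusedSectionVars false

/-!
# The contraction
-/

namespace Pool.Agent.DNS

open Pool.Agent.BCF Pool.Agent.SCP

variable {V : Type} [Fintype V] [DecidableEq V] {G : SimpleGraph V} [DecidableRel G.Adj]
  {F D : Finset V → Finset V → ℝ} {B C : Finset V} {k : ℕ}

/-- The bound for `F` at the level `m`. -/
def PF (F : Finset V → Finset V → ℝ) (B : Finset V) (m : ℕ) (φ : ℝ) : Prop :=
  ∀ W : Finset V, (W ∩ B).card = m → ∀ y ∈ W ∩ B, Ph (F W) (W ∩ B) y ≤ φ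

/-- The bound for `D` at the level `m`. -/
def PD (D : Finset V → Finset V → ℝ) (B : Finset V) (m : ℕ) (ψ : ℝ) : Prop :=
  ∀ W : Finset V, (W ∩ B).card = m → ∀ y ∈ W ∩ B, Ph (fun S => |D W S|) (W ∩ B) y ≤ ψ

theorem card_erase_B {W : Finset V} {x : V} {m : ℕ} (hx : x ∈ W ∩ B)
    (hm : (W ∩ B).card = m + 1) : ((W.erase x) ∩ B).card = m := by
  rw [erase_inter, Finset.card_erase_of_mem hx, hm]
  rfl

/-- The pair sums of `F`. -/
theorem pair_F (fd : FDS G F D) (cd : Cd G B C k) {m : ℕ} {φ : ℝ} (hkm : k ≤ m)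
    (h : PF F B m φ) {W : Finset V} (hm : (W ∩ B).card = m + 1) {x y : V}
    (hx : x ∈ W ∩ B) (hy : y ∈ W ∩ B) (hxy : x ≠ y) (hadj : ¬ G.Adj x y) :
    Ph2 (F W) (W ∩ B) x y ≤ φ / ((m : ℝ) + 1 - k) := by
  have hq : (0 : ℝ) < (m : ℝ) + 1 - k := by
    have : (k : ℝ) ≤ m := by exact_mod_cast hkm
    linarith
  -- the case of `x` in `C`
  have key : ∀ x y : V, x ∈ W ∩ B → y ∈ W ∩ B → x ≠ y → ¬ G.Adj x y → x ∈ C →
      Ph2 (F W) (W ∩ B) x y ≤ φ / ((m : ℝ) + 1 - k) := by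
    intro x y hx hy hxy hadj hxC
    have hxW := (Finset.mem_inter.mp hx).1
    have h1 := step_F fd cd hxC hxW hxy hadj
    have h2 : Ph (F (W.erase x)) ((W.erase x) ∩ B) y ≤ φ := by
      refine h _ (card_erase_B hx hm) y ?_
      rw [erase_inter, Finset.mem_erase]
      exact ⟨hxy.symm, hy⟩
    have h3 := Z_card fd cd hxC hxW
    rw [hm] at h3
    push_cast at h3
    have h4 : 0 ≤ Ph2 (F W) (W ∩ B) x y :=
      Ph2_nonneg (fun S hS => fd.F_nonneg _ _ (hS.trans Finset.inter_subset_left)) x y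
    rw [le_div_iff₀ hq]
    calc Ph2 (F W) (W ∩ B) x y * ((m : ℝ) + 1 - k)
        ≤ Ph2 (F W) (W ∩ B) x y * ZZ G F W x := mul_le_mul_of_nonneg_left h3 h4
      _ ≤ φ := by rw [h1]; exact h2
  by_cases hxC : x ∈ C
  · exact key x y hx hy hxy hadj hxC
  · have hyC : y ∈ C := by
      by_contra hyC
      exact hadj (cd.clq x (Finset.mem_inter.mp hx).2 y (Finset.mem_inter.mp hy).2 hxC hyC hxy)
    rw [Ph2_symm]
    exact key y x hy hx hxy.symm (fun h => hadj h.symm) hyC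

theorem PF_step (fd : FDS G F D) (cd : Cd G B C k) {m : ℕ} {φ : ℝ} (hkm : k ≤ m)
    (h : PF F B m φ) (hφ : 0 ≤ φ) : PF F B (m + 1) (1 + k * (φ / ((m : ℝ) + 1 - k))) := by
  intro W hm y hy
  have hq : (0 : ℝ) < (m : ℝ) + 1 - k := by
    have : (k : ℝ) ≤ m := by exact_mod_cast hkm
    linarith
  have h1 := cover (G := G) (f := F W) (M := W ∩ B) (y := y)
    (fun S hS => fd.F_nonneg _ _ (hS.trans Finset.inter_subset_left))
    (fun S hS a ha b hb hab => fd.F_edge W S a b (hS.trans Finset.inter_subset_left) ha hb hab) hy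
  refine h1.trans ?_
  rw [fd.F_single]
  refine add_le_add le_rfl ?_
  calc ∑ x ∈ nn G (W ∩ B) y, Ph2 (F W) (W ∩ B) x y
      ≤ ∑ _x ∈ nn G (W ∩ B) y, φ / ((m : ℝ) + 1 - k) := by
        refine Finset.sum_le_sum fun x hx => ?_
        rw [mem_nn] at hx
        exact pair_F fd cd hkm h hm hx.1 hy hx.2.1 (fun h => hx.2.2 h.symm)
    _ = ((nn G (W ∩ B) y).card : ℝ) * (φ / ((m : ℝ) + 1 - k)) := by
        rw [Finset.sum_const, nsmul_eq_mul]
    _ ≤ k * (φ / ((m : ℝ) + 1 - k)) := by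
        refine mul_le_mul_of_nonneg_right ?_ (div_nonneg hφ hq.le)
        exact_mod_cast nn_card cd hy

/-- The derivative of the normalising sum. -/
theorem Z'_bound (fd : FDS G F D) (cd : Cd G B C k) {m : ℕ} {ψ : ℝ}
    (h : PD D B m ψ) (hψ : 0 ≤ ψ) {W : Finset V} (hm : (W ∩ B).card = m + 1) {x : V}
    (hx : x ∈ W ∩ B) (hxC : x ∈ C) {M : Finset V} (hM : M ⊆ nb G W x) :
    2 * ∑ S ∈ M.powerset, |D (W.erase x) S| ≤ m * ψ := by
  have hMB : M ⊆ (W.erase x) ∩ B := hM.trans (nb_sub_B cd hxC)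
  have h1 := sum_two_le (f := fun S => |D (W.erase x) S|) (M := M)
    (fun S _ => abs_nonneg _) (fun S _ hc => by
      show |D (W.erase x) S| = 0
      rw [D_small fd hc, abs_zero])
  refine h1.trans ?_
  calc ∑ z ∈ M, Ph (fun S => |D (W.erase x) S|) M z ≤ ∑ _z ∈ M, ψ := by
        refine Finset.sum_le_sum fun z hz => ?_
        refine (Ph_mono hMB (fun S _ => abs_nonneg _) z).trans ?_
        exact h _ (card_erase_B hx hm) z (hMB hz)
    _ = (M.card : ℝ) * ψ := by rw [Finset.sum_const, nsmul_eq_mul]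
    _ ≤ m * ψ := by
        refine mul_le_mul_of_nonneg_right ?_ hψ
        have := Finset.card_le_card hMB
        rw [card_erase_B hx hm] at this
        exact_mod_cast this

/-- The pair sums of `D`. -/
theorem pair_D (fd : FDS G F D) (cd : Cd G B C k) {m : ℕ} {φ ψ : ℝ} (hkm : k ≤ m)
    (h : PF F B m φ) (hφ : 0 ≤ φ) (h' : PD D B m ψ) (hψ : 0 ≤ ψ) {W : Finset V}
    (hm : (W ∩ B).card = m + 1) {x y : V}
    (hx : x ∈ W ∩ B) (hy : y ∈ W ∩ B) (hxy : x ≠ y) (hadj : ¬ G.Adj x y) :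
    Ph2 (fun S => |D W S|) (W ∩ B) x y ≤
      (φ / ((m : ℝ) + 1 - k) * (1 + m / 2 * ψ) + ψ) / ((m : ℝ) + 1 - k) := by
  have hq : (0 : ℝ) < (m : ℝ) + 1 - k := by
    have : (k : ℝ) ≤ m := by exact_mod_cast hkm
    linarith
  have key : ∀ x y : V, x ∈ W ∩ B → y ∈ W ∩ B → x ≠ y → ¬ G.Adj x y → x ∈ C →
      Ph2 (fun S => |D W S|) (W ∩ B) x y ≤
        (φ / ((m : ℝ) + 1 - k) * (1 + m / 2 * ψ) + ψ) / ((m : ℝ) + 1 - k) := by
    intro x y hx hy hxy hadj hxC
    have hxW := (Finset.mem_inter.mp hx).1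
    have h1 := step_D fd cd hxC hxW hxy hadj
    have h2 : Ph (fun S => |D (W.erase x) S|) ((W.erase x) ∩ B) y ≤ ψ := by
      refine h' _ (card_erase_B hx hm) y ?_
      rw [erase_inter, Finset.mem_erase]
      exact ⟨hxy.symm, hy⟩
    have h3 := Z_card fd cd hxC hxW
    rw [hm] at h3
    push_cast at h3
    have h4 : 0 ≤ Ph2 (fun S => |D W S|) (W ∩ B) x y :=
      Ph2_nonneg (fun S _ => abs_nonneg _) x y
    have h5 : |1 + ∑ S ∈ (nb G W x).powerset, D (W.erase x) S| ≤ 1 + m / 2 * ψ := by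
      have h6 := Z'_bound fd cd h' hψ hm hx hxC (subset_refl (nb G W x))
      have h7 := Finset.abs_sum_le_sum_abs (fun S => D (W.erase x) S) (nb G W x).powerset
      refine (abs_add_le _ _).trans ?_
      rw [abs_one]
      linarith
    have h8 := pair_F fd cd hkm h hm hx hy hxy hadj
    have h9 : 0 ≤ Ph2 (F W) (W ∩ B) x y :=
      Ph2_nonneg (fun S hS => fd.F_nonneg _ _ (hS.trans Finset.inter_subset_left)) x y
    rw [le_div_iff₀ hq]
    calc Ph2 (fun S => |D W S|) (W ∩ B) x y * ((m : ℝ) + 1 - k)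
        ≤ Ph2 (fun S => |D W S|) (W ∩ B) x y * ZZ G F W x := mul_le_mul_of_nonneg_left h3 h4
      _ ≤ Ph2 (F W) (W ∩ B) x y * |1 + ∑ S ∈ (nb G W x).powerset, D (W.erase x) S| +
          Ph (fun S => |D (W.erase x) S|) ((W.erase x) ∩ B) y := h1
      _ ≤ φ / ((m : ℝ) + 1 - k) * (1 + m / 2 * ψ) + ψ := by
          refine add_le_add ?_ h2
          exact mul_le_mul h8 h5 (abs_nonneg _) (div_nonneg hφ hq.le)
  by_cases hxC : x ∈ C
  · exact key x y hx hy hxy hadj hxC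
  · have hyC : y ∈ C := by
      by_contra hyC
      exact hadj (cd.clq x (Finset.mem_inter.mp hx).2 y (Finset.mem_inter.mp hy).2 hxC hyC hxy)
    rw [Ph2_symm]
    exact key y x hy hx hxy.symm (fun h => hadj h.symm) hyC

theorem PD_step (fd : FDS G F D) (cd : Cd G B C k) {m : ℕ} {φ ψ : ℝ} (hkm : k ≤ m)
    (h : PF F B m φ) (hφ : 0 ≤ φ) (h' : PD D B m ψ) (hψ : 0 ≤ ψ) :
    PD D B (m + 1) (k * ((φ / ((m : ℝ) + 1 - k) * (1 + m / 2 * ψ) + ψ) /
      ((m : ℝ) + 1 - k))) := by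
  intro W hm y hy
  have hq : (0 : ℝ) < (m : ℝ) + 1 - k := by
    have : (k : ℝ) ≤ m := by exact_mod_cast hkm
    linarith
  have h1 := cover (G := G) (f := fun S => |D W S|) (M := W ∩ B) (y := y)
    (fun S _ => abs_nonneg _)
    (fun S hS a ha b hb hab => by
      show |D W S| = 0
      rw [fd.D_edge W S a b (hS.trans Finset.inter_subset_left) ha hb hab, abs_zero]) hy
  refine h1.trans ?_
  have h0 : |D W {y}| = 0 := by rw [fd.D_single, abs_zero]
  rw [h0, zero_add]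
  calc ∑ x ∈ nn G (W ∩ B) y, Ph2 (fun S => |D W S|) (W ∩ B) x y
      ≤ ∑ _x ∈ nn G (W ∩ B) y,
          (φ / ((m : ℝ) + 1 - k) * (1 + m / 2 * ψ) + ψ) / ((m : ℝ) + 1 - k) := by
        refine Finset.sum_le_sum fun x hx => ?_
        rw [mem_nn] at hx
        exact pair_D fd cd hkm h hφ h' hψ hm hx.1 hy hx.2.1 (fun h => hx.2.2 h.symm)
    _ = ((nn G (W ∩ B) y).card : ℝ) *
          ((φ / ((m : ℝ) + 1 - k) * (1 + m / 2 * ψ) + ψ) / ((m : ℝ) + 1 - k)) := by
        rw [Finset.sum_const, nsmul_eq_mul]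
    _ ≤ _ := by
        refine mul_le_mul_of_nonneg_right ?_ (by positivity)
        exact_mod_cast nn_card cd hy

theorem PF.mono {m : ℕ} {φ φ' : ℝ} (h : PF F B m φ) (hle : φ ≤ φ') : PF F B m φ' :=
  fun W hm y hy => (h W hm y hy).trans hle

theorem PD.mono {m : ℕ} {ψ ψ' : ℝ} (h : PD D B m ψ) (hle : ψ ≤ ψ') : PD D B m ψ' :=
  fun W hm y hy => (h W hm y hy).trans hle

theorem PF_seq (fd : FDS G F D) (cd : Cd G B C k) (hk : 1 ≤ k) (j : ℕ) :
    PF F B (9 * k + j) (5 / 4 + 2 ^ k / 8 ^ j) := by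
  induction j with
  | zero =>
    intro W _ y hy
    have h := Ph_apriori fd cd hy
    rw [pow_zero, div_one]
    linarith
  | succ j ih =>
    have h := PF_step fd cd (by omega : k ≤ 9 * k + j) ih (by positivity)
    refine PF.mono h ?_
    have hk1 : (1 : ℝ) ≤ k := by exact_mod_cast hk
    have hj : (0 : ℝ) ≤ j := Nat.cast_nonneg j
    push_cast
    have hq : (8 : ℝ) * k ≤ 9 * k + j + 1 - k := by linarith
    have hq0 : (0 : ℝ) < 9 * k + j + 1 - k := by linarith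
    set φ : ℝ := 5 / 4 + 2 ^ k / 8 ^ j with hφ
    have hφ0 : 0 ≤ φ := by positivity
    have h1 : (k : ℝ) * (φ / (9 * k + j + 1 - k)) ≤ φ / 8 := by
      rw [← mul_div_assoc, div_le_div_iff₀ hq0 (by norm_num)]
      nlinarith
    have h2 : (2 : ℝ) ^ k / 8 ^ (j + 1) = 2 ^ k / 8 ^ j / 8 := by
      rw [pow_succ]
      field_simp
    rw [h2]
    have h3 : φ / 8 = 5 / 32 + 2 ^ k / 8 ^ j / 8 := by rw [hφ]; ring
    linarith

theorem PF_late (fd : FDS G F D) (cd : Cd G B C k) (hk : 1 ≤ k) (j : ℕ) :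
    PF F B (10 * k + j) (3 / 2) := by
  have h := PF_seq fd cd hk (k + j)
  have e : 9 * k + (k + j) = 10 * k + j := by ring
  rw [e] at h
  refine PF.mono h ?_
  have h1 : (2 : ℝ) ^ k / 8 ^ (k + j) ≤ 1 / 4 := by
    rw [div_le_div_iff₀ (by positivity) (by norm_num)]
    have h2 : (4 : ℝ) ≤ 4 ^ k := by
      calc (4 : ℝ) = 4 ^ 1 := by norm_num
        _ ≤ 4 ^ k := pow_le_pow_right₀ (by norm_num) hk
    have h3 : (8 : ℝ) ^ k = 2 ^ k * 4 ^ k := by rw [← mul_pow]; norm_num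
    have h4 : (1 : ℝ) ≤ 8 ^ j := one_le_pow₀ (by norm_num)
    have h5 : (0 : ℝ) < 2 ^ k := by positivity
    rw [pow_add, h3]
    have h6 : (2 : ℝ) ^ k * 4 ≤ 2 ^ k * 4 ^ k := mul_le_mul_of_nonneg_left h2 h5.le
    have h7 : (2 : ℝ) ^ k * 4 ^ k * 1 ≤ 2 ^ k * 4 ^ k * 8 ^ j :=
      mul_le_mul_of_nonneg_left h4 (by positivity)
    linarith
  linarith

theorem PD_base (fd : FDS G F D) (cd : Cd G B C k) (hk : 1 ≤ k) :
    PD D B (10 * k) (2 ^ (10 * k) / 2) := by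
  intro W hm y hy
  have hF := PF_late fd cd hk 0 W (by rw [hm, add_zero]) y hy
  have hn : (W ∩ C).card ≤ 10 * k := by
    rw [← hm]
    exact Finset.card_le_card (Finset.inter_subset_inter_left cd.CB)
  set n := (W ∩ C).card with hnd
  have hpow : (2 : ℝ) ^ n ≤ 2 ^ (10 * k) := pow_le_pow_right₀ (by norm_num) hn
  have hpow1 : (1 : ℝ) ≤ 2 ^ n := one_le_pow₀ (by norm_num)
  have hyp : ({y} : Finset V) ∈ (W ∩ B).powerset := by
    rw [Finset.mem_powerset, Finset.singleton_subset_iff]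
    exact hy
  have h1 : Ph (fun S => |D W S|) (W ∩ B) y ≤
      ((2 : ℝ) ^ n - 1) * (Ph (F W) (W ∩ B) y - 1) := by
    have e : Ph (F W) (W ∩ B) y - 1 =
        ∑ S ∈ (W ∩ B).powerset, ((if y ∈ S then F W S else 0) - if S = {y} then 1 else 0) := by
      rw [Finset.sum_sub_distrib, Finset.sum_ite_eq', if_pos hyp]
      rfl
    rw [e, Finset.mul_sum]
    unfold Ph
    refine Finset.sum_le_sum fun S hS => ?_
    rw [Finset.mem_powerset] at hS
    by_cases hyS : y ∈ S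
    · rw [if_pos hyS, if_pos hyS]
      by_cases h2 : S = {y}
      · subst h2
        show |D W {y}| ≤ _
        rw [fd.D_single, fd.F_single, if_pos rfl]
        simp
      · rw [if_neg h2, sub_zero]
        exact D_rel fd cd n W rfl S (hS.trans Finset.inter_subset_left)
          (hS.trans Finset.inter_subset_right)
    · rw [if_neg hyS, if_neg hyS, if_neg]
      · simp
      · rintro rfl
        exact hyS (Finset.mem_singleton_self y)
  refine h1.trans ?_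
  have h2 : Ph (F W) (W ∩ B) y - 1 ≤ 1 / 2 := by linarith
  calc ((2 : ℝ) ^ n - 1) * (Ph (F W) (W ∩ B) y - 1) ≤ (2 ^ n - 1) * (1 / 2) :=
        mul_le_mul_of_nonneg_left h2 (by linarith)
    _ ≤ 2 ^ (10 * k) / 2 := by linarith

theorem PD_seq (fd : FDS G F D) (cd : Cd G B C k) (hk : 1 ≤ k) (j : ℕ) :
    PD D B (10 * k + j) (9 / 4 * k / (9 * k + j) ^ 2 + 2 ^ (10 * k) / 2 / 4 ^ j) := by
  have hk1 : (1 : ℝ) ≤ k := by exact_mod_cast hk
  induction j with
  | zero =>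
    rw [add_zero]
    refine PD.mono (PD_base fd cd hk) ?_
    rw [pow_zero, div_one]
    have : (0 : ℝ) ≤ 9 / 4 * k / (9 * k + (0 : ℕ)) ^ 2 := by positivity
    linarith
  | succ j ih =>
    have h := PD_step fd cd (by omega : k ≤ 10 * k + j) (PF_late fd cd hk j) (by norm_num) ih
      (by positivity)
    refine PD.mono h ?_
    have hj : (0 : ℝ) ≤ j := Nat.cast_nonneg j
    push_cast
    set b : ℝ := 2 ^ (10 * k) / 2 / 4 ^ j with hb
    have hb0 : 0 ≤ b := by positivity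
    have hb1 : (2 : ℝ) ^ (10 * k) / 2 / 4 ^ (j + 1) = b / 4 := by
      rw [hb, pow_succ]
      field_simp
    rw [hb1]
    set q : ℝ := 9 * k + (j + 1) with hq
    have hqe : (10 : ℝ) * k + j + 1 - k = q := by rw [hq]; ring
    have hqe' : (9 : ℝ) * k + j = q - 1 := by rw [hq]; ring
    have hq10 : 10 ≤ q := by rw [hq]; linarith
    have hq9 : 9 * (k : ℝ) ≤ q := by rw [hq]; linarith
    have hm : 9 * ((10 : ℝ) * k + j) ≤ 10 * q := by rw [hq]; linarith
    rw [hqe, hqe']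
    set ψ : ℝ := 9 / 4 * k / (q - 1) ^ 2 + b with hψ
    have hq1 : 0 < q - 1 := by linarith
    have hq0 : 0 < q := by linarith
    have hψ0 : 0 ≤ ψ := by positivity
    -- the first estimate
    have h1 : (k : ℝ) * ((3 / 2 / q * (1 + (10 * k + j) / 2 * ψ) + ψ) / q) ≤
        3 / 2 * k / q ^ 2 + 11 / 54 * ψ := by
      have e : (k : ℝ) * ((3 / 2 / q * (1 + (10 * k + j) / 2 * ψ) + ψ) / q) =
          3 / 2 * k / q ^ 2 + (k / q) * (1 + 3 / 4 * ((10 * k + j) / q)) * ψ := by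
        field_simp
        ring
      rw [e]
      have a1 : (k : ℝ) / q ≤ 1 / 9 := by
        rw [div_le_div_iff₀ hq0 (by norm_num)]
        linarith
      have a2 : ((10 : ℝ) * k + j) / q ≤ 10 / 9 := by
        rw [div_le_div_iff₀ hq0 (by norm_num)]
        linarith
      have a3 : 0 ≤ (k : ℝ) / q := by positivity
      have a4 : (k : ℝ) / q * (1 + 3 / 4 * ((10 * k + j) / q)) ≤ 1 / 9 * (11 / 6) := by
        refine mul_le_mul a1 ?_ ?_ (by norm_num)
        · linarith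
        · have : 0 ≤ ((10 : ℝ) * k + j) / q := by positivity
          linarith
      have a5 := mul_le_mul_of_nonneg_right a4 hψ0
      linarith
    have h2 : 11 / 54 * (9 / 4 * k / (q - 1) ^ 2) ≤ 3 / 4 * k / q ^ 2 := by
      rw [← mul_div_assoc, div_le_div_iff₀ (by positivity) (by positivity)]
      have c1 : 11 * q ^ 2 ≤ 18 * (q - 1) ^ 2 := by nlinarith
      have c2 : 0 ≤ (k : ℝ) := by linarith
      have c3 := mul_le_mul_of_nonneg_left c1 c2
      linarith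
    have h3 : 11 / 54 * ψ ≤ 3 / 4 * k / q ^ 2 + b / 4 := by
      rw [hψ, mul_add]
      linarith
    have h4 : 3 / 2 * (k : ℝ) / q ^ 2 + 3 / 4 * k / q ^ 2 = 9 / 4 * k / q ^ 2 := by
      rw [← add_div]
      ring
    linarith

/-- The numerical estimate. -/
theorem numeric {k j : ℕ} (hk : 1 ≤ k) (hj : 10 * k ≤ j + 1) :
    2 * ((10 : ℝ) * k + j + 1) *
      (9 / 4 * k / (9 * k + j) ^ 2 + 2 ^ (10 * k) / 2 / 4 ^ j) < 1 := by
  obtain ⟨t, ht⟩ := Nat.exists_eq_add_of_le hj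
  have hk1 : (1 : ℝ) ≤ k := by exact_mod_cast hk
  have ht0 : (0 : ℝ) ≤ t := Nat.cast_nonneg t
  have hjr : (j : ℝ) = 10 * k + t - 1 := by
    have : (j : ℝ) + 1 = 10 * k + t := by exact_mod_cast ht
    linarith
  have p1 : 2 * ((10 : ℝ) * k + j + 1) * (9 / 4 * k / (9 * k + j) ^ 2) ≤ 5 / 18 := by
    rw [← mul_div_assoc, hjr]
    have hpos : (0 : ℝ) < 9 * k + (10 * k + t - 1) := by linarith
    rw [div_le_div_iff₀ (by positivity) (by norm_num)]
    have c1 : 18 * (k : ℝ) + t ≤ 9 * k + (10 * k + t - 1) := by linarith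
    have c2 : (18 * (k : ℝ) + t) ^ 2 ≤ (9 * k + (10 * k + t - 1)) ^ 2 :=
      pow_le_pow_left₀ (by positivity) c1 2
    have c3 : 0 ≤ (k : ℝ) * t := by positivity
    nlinarith [c2, c3, sq_nonneg (t : ℝ)]
  have p2 : 2 * ((10 : ℝ) * k + j + 1) * (2 ^ (10 * k) / 2 / 4 ^ j) ≤ 1 / 2 := by
    have e0 : (4 : ℝ) ^ j * 4 = 2 ^ (10 * k) * 2 ^ (10 * k) * 4 ^ t := by
      rw [← pow_succ, ht, pow_add, pow_mul, pow_mul, ← mul_pow]
      norm_num
    have e1 : (4 : ℝ) ^ j = 2 ^ (10 * k) * 2 ^ (10 * k) * 4 ^ t / 4 := by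
      rw [← e0]; ring
    have e2 : 2 * ((10 : ℝ) * k + j + 1) * (2 ^ (10 * k) / 2 / 4 ^ j) =
        4 * (20 * k + t) / (2 ^ (10 * k) * 4 ^ t) := by
      rw [e1, hjr]
      field_simp
      ring
    rw [e2, div_le_div_iff₀ (by positivity) (by norm_num)]
    have b1 : 1 + (k : ℝ) * 1023 ≤ 2 ^ (10 * k) := by
      have := one_add_mul_le_pow (by norm_num : (-2 : ℝ) ≤ 1023) k
      rw [pow_mul]
      norm_num at this ⊢
      linarith
    have b2 : 1 + (t : ℝ) * 3 ≤ 4 ^ t := by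
      have := one_add_mul_le_pow (by norm_num : (-2 : ℝ) ≤ 3) t
      norm_num at this ⊢
      linarith
    have b3 : (1 + (k : ℝ) * 1023) * (1 + t * 3) ≤ 2 ^ (10 * k) * 4 ^ t :=
      mul_le_mul b1 b2 (by positivity) (by positivity)
    have b4 : (0 : ℝ) ≤ (k - 1) * t := mul_nonneg (by linarith) ht0
    nlinarith [b3, b4]
  rw [mul_add]
  linarith

end Pool.Agent.DNS
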