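import Pool.Agent.DNS.Sums

set_option autoImplicit false
set_option linter.unusedSectionVars false

/-!
# One step of the recursion
-/

namespace Pool.Agent.DNS

open Pool.Agent.BCF Pool.Agent.SCP

variable {V : Type} [Fintype V] [DecidableEq V] {G : SimpleGraph V} [DecidableRel G.Adj]
  {F D : Finset V → Finset V → ℝ} {B C : Finset V} {k : ℕ}

/-- The configuration. -/
structure Cd (G : SimpleGraph V) [DecidableRel G.Adj] (B C : Finset V) (k : ℕ) : Prop where
  CB : C ⊆ B
  nbr : ∀ x ∈ C, ∀ y, G.Adj x y → y ∈ B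
  clq : ∀ a ∈ B, ∀ b ∈ B, a ∉ C → b ∉ C → a ≠ b → G.Adj a b
  non : ∀ y ∈ B, (nn G B y).card ≤ k

/-- The normalising sum. -/
noncomputable def ZZ (G : SimpleGraph V) [DecidableRel G.Adj] (F : Finset V → Finset V → ℝ)
    (W : Finset V) (x : V) : ℝ := ∑ S ∈ (nb G W x).powerset, F (W.erase x) S

theorem nb_sub_erase {W : Finset V} {x : V} : nb G W x ⊆ W.erase x := by
  intro a ha
  unfold nb at ha
  rw [Finset.mem_filter] at ha
  exact Finset.mem_erase.mpr ⟨ha.2.ne', ha.1⟩

theorem nb_sub_B (cd : Cd G B C k) {W : Finset V} {x : V} (hx : x ∈ C) :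
    nb G W x ⊆ (W.erase x) ∩ B := by
  intro a ha
  rw [Finset.mem_inter]
  refine ⟨nb_sub_erase ha, ?_⟩
  unfold nb at ha
  rw [Finset.mem_filter] at ha
  exact cd.nbr x hx a ha.2

theorem erase_inter {W : Finset V} {x : V} : (W.erase x) ∩ B = (W ∩ B).erase x := by
  ext a
  simp only [Finset.mem_inter, Finset.mem_erase]
  tauto

theorem Z_one (fd : FDS G F D) (W : Finset V) (x : V) : 1 ≤ ZZ G F W x := by
  unfold ZZ
  calc (1 : ℝ) = F (W.erase x) ∅ := (fd.F_empty _).symm
    _ ≤ _ := Finset.single_le_sum (f := fun S => F (W.erase x) S)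
      (fun S hS => fd.F_nonneg _ _ ((Finset.mem_powerset.mp hS).trans nb_sub_erase))
      (Finset.empty_mem_powerset _)

theorem Z_lower (fd : FDS G F D) (W : Finset V) (x : V) :
    1 + ((nb G W x).card : ℝ) ≤ ZZ G F W x := by
  unfold ZZ
  have h : ∀ S ∈ (nb G W x).powerset, (if S = ∅ then (1 : ℝ) else 0) +
      (if S.card = 1 then 1 else 0) ≤ F (W.erase x) S := by
    intro S hS
    rw [Finset.mem_powerset] at hS
    by_cases h0 : S = ∅
    · subst h0
      rw [fd.F_empty]
      simp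
    · rw [if_neg h0, zero_add]
      by_cases h1 : S.card = 1
      · obtain ⟨v, rfl⟩ := Finset.card_eq_one.mp h1
        rw [fd.F_single, if_pos h1]
      · rw [if_neg h1]
        exact fd.F_nonneg _ _ (hS.trans nb_sub_erase)
  refine le_trans ?_ (Finset.sum_le_sum h)
  rw [Finset.sum_add_distrib, Finset.sum_ite_eq', if_pos (Finset.empty_mem_powerset _)]
  have h5 : ((nb G W x).powerset.filter fun T => T.card = 1) = (nb G W x).powersetCard 1 := by
    ext T
    rw [Finset.mem_filter, Finset.mem_powerset, Finset.mem_powersetCard]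
  rw [← Finset.sum_filter, h5, Finset.sum_const, Finset.card_powersetCard,
    Nat.choose_one_right, nsmul_eq_mul, mul_one]

/-- The number of neighbours. -/
theorem nb_card (cd : Cd G B C k) {W : Finset V} {x : V} (hx : x ∈ C) (hxW : x ∈ W) :
    (W ∩ B).card ≤ 1 + (nb G W x).card + k := by
  have hsub : W ∩ B ⊆ {x} ∪ nb G W x ∪ nn G B x := by
    intro a ha
    rw [Finset.mem_inter] at ha
    rw [Finset.mem_union, Finset.mem_union, Finset.mem_singleton, mem_nn]
    by_cases h1 : a = x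
    · exact Or.inl (Or.inl h1)
    · by_cases h2 : G.Adj x a
      · refine Or.inl (Or.inr ?_)
        unfold nb
        exact Finset.mem_filter.mpr ⟨ha.1, h2⟩
      · exact Or.inr ⟨ha.2, h1, h2⟩
  calc (W ∩ B).card ≤ ({x} ∪ nb G W x ∪ nn G B x).card := Finset.card_le_card hsub
    _ ≤ ({x} ∪ nb G W x).card + (nn G B x).card := Finset.card_union_le _ _
    _ ≤ (({x} : Finset V).card + (nb G W x).card) + k :=
        add_le_add (Finset.card_union_le _ _) (cd.non x (cd.CB hx))
    _ = 1 + (nb G W x).card + k := by rw [Finset.card_singleton]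

theorem Z_card (fd : FDS G F D) (cd : Cd G B C k) {W : Finset V} {x : V} (hx : x ∈ C)
    (hxW : x ∈ W) : ((W ∩ B).card : ℝ) - k ≤ ZZ G F W x := by
  have h1 := Z_lower fd W x
  have h2 : ((W ∩ B).card : ℝ) ≤ 1 + (nb G W x).card + k := by
    exact_mod_cast nb_card cd hx hxW
  linarith

section step

variable {W : Finset V} {x y : V}

/-- Splitting a sum over the sets containing `x` and `y`. -/
theorem split_two (cd : Cd G B C k) (hx : x ∈ C) (hxW : x ∈ W) (hxy : x ≠ y)
    (hadj : ¬ G.Adj x y) {f : Finset V → ℝ}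
    (h0 : ∀ T ⊆ W, ∀ a ∈ T, x ∈ T → G.Adj x a → f T = 0) :
    Ph2 f (W ∩ B) x y = Ph (fun T => f (insert x T)) (((W.erase x) ∩ B) \ nb G W x) y := by
  have hxM : x ∈ W ∩ B := Finset.mem_inter.mpr ⟨hxW, cd.CB hx⟩
  rw [Ph2_insert f hxM hxy, ← erase_inter]
  have hN := nb_sub_B cd (W := W) hx
  have hu : ((W.erase x) ∩ B) \ nb G W x ∪ nb G W x = (W.erase x) ∩ B :=
    Finset.sdiff_union_of_subset hN
  have hyN : y ∉ nb G W x := by
    intro h
    unfold nb at h
    exact hadj (Finset.mem_filter.mp h).2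
  conv_lhs => rw [← hu]
  refine Ph_restrict _ Finset.sdiff_disjoint hyN ?_
  intro T hT S hS hne
  obtain ⟨a, ha⟩ := hne
  refine h0 _ ?_ a ?_ (Finset.mem_insert_self _ _) ?_
  · intro b hb
    rw [Finset.mem_insert, Finset.mem_union] at hb
    rcases hb with rfl | hb | hb
    · exact hxW
    · have := (Finset.mem_sdiff.mp (hT hb)).1
      exact Finset.mem_of_mem_erase (Finset.mem_inter.mp this).1
    · exact Finset.mem_of_mem_erase (nb_sub_erase (hS hb))
  · exact Finset.mem_insert_of_mem (Finset.mem_union_right _ ha)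
  · have := hS ha
    unfold nb at this
    exact (Finset.mem_filter.mp this).2

theorem split_one (cd : Cd G B C k) (hx : x ∈ C) (hadj : ¬ G.Adj x y) (f : Finset V → ℝ) :
    Ph f ((W.erase x) ∩ B) y = ∑ T ∈ (((W.erase x) ∩ B) \ nb G W x).powerset,
      if y ∈ T then (∑ S ∈ (nb G W x).powerset, f (T ∪ S)) else 0 := by
  have hN := nb_sub_B cd (W := W) hx
  have hu : ((W.erase x) ∩ B) \ nb G W x ∪ nb G W x = (W.erase x) ∩ B :=
    Finset.sdiff_union_of_subset hN
  have hyN : y ∉ nb G W x := by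
    intro h
    unfold nb at h
    exact hadj (Finset.mem_filter.mp h).2
  conv_lhs => rw [← hu]
  exact Ph_split f Finset.sdiff_disjoint hyN

theorem side (hxW : x ∈ W) {T : Finset V} (hT : T ⊆ ((W.erase x) ∩ B) \ nb G W x) :
    T ⊆ W ∧ x ∉ T ∧ ∀ a ∈ T, ¬ G.Adj x a := by
  refine ⟨?_, ?_, ?_⟩
  · intro a ha
    have := (Finset.mem_sdiff.mp (hT ha)).1
    exact Finset.mem_of_mem_erase (Finset.mem_inter.mp this).1
  · intro h
    have := (Finset.mem_sdiff.mp (hT h)).1
    exact Finset.notMem_erase x W (Finset.mem_inter.mp this).1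
  · intro a ha hadj
    have h1 := Finset.mem_sdiff.mp (hT ha)
    apply h1.2
    unfold nb
    exact Finset.mem_filter.mpr
      ⟨Finset.mem_of_mem_erase (Finset.mem_inter.mp h1.1).1, hadj⟩

/-- The step for `F`. -/
theorem step_F (fd : FDS G F D) (cd : Cd G B C k) (hx : x ∈ C) (hxW : x ∈ W) (hxy : x ≠ y)
    (hadj : ¬ G.Adj x y) :
    Ph2 (F W) (W ∩ B) x y * ZZ G F W x = Ph (F (W.erase x)) ((W.erase x) ∩ B) y := by
  rw [split_two cd hx hxW hxy hadj (f := F W)
    (fun T hT a ha hxT hxa => fd.F_edge W T x a hT hxT ha hxa), split_one cd hx hadj]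
  unfold Ph
  rw [Finset.sum_mul]
  refine Finset.sum_congr rfl fun T hT => ?_
  rw [Finset.mem_powerset] at hT
  obtain ⟨h1, h2, h3⟩ := side hxW hT
  split_ifs with hy
  · exact fd.F_step W x T hxW h1 h2 ⟨y, hy⟩ h3
  · rw [zero_mul]

/-- The step for `D`. -/
theorem step_D (fd : FDS G F D) (cd : Cd G B C k) (hx : x ∈ C) (hxW : x ∈ W) (hxy : x ≠ y)
    (hadj : ¬ G.Adj x y) :
    Ph2 (fun S => |D W S|) (W ∩ B) x y * ZZ G F W x ≤
      Ph2 (F W) (W ∩ B) x y * |1 + ∑ S ∈ (nb G W x).powerset, D (W.erase x) S| +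
        Ph (fun S => |D (W.erase x) S|) ((W.erase x) ∩ B) y := by
  rw [split_two cd hx hxW hxy hadj (f := fun S => |D W S|)
    (fun T hT a ha hxT hxa => by
      show |D W T| = 0
      rw [fd.D_edge W T x a hT hxT ha hxa, abs_zero]),
    split_two cd hx hxW hxy hadj (f := F W)
    (fun T hT a ha hxT hxa => fd.F_edge W T x a hT hxT ha hxa), split_one cd hx hadj]
  unfold Ph
  rw [Finset.sum_mul, Finset.sum_mul, ← Finset.sum_add_distrib]
  refine Finset.sum_le_sum fun T hT => ?_
  rw [Finset.mem_powerset] at hT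
  obtain ⟨h1, h2, h3⟩ := side hxW hT
  split_ifs with hy
  · have h4 := fd.D_step W x T hxW h1 h2 ⟨y, hy⟩ h3
    have hZ : 0 ≤ ZZ G F W x := zero_le_one.trans (Z_one fd W x)
    have hF : 0 ≤ F W (insert x T) := fd.F_nonneg _ _ (Finset.insert_subset hxW h1)
    have h5 : D W (insert x T) * ZZ G F W x =
        (∑ S ∈ (nb G W x).powerset, D (W.erase x) (T ∪ S)) -
          F W (insert x T) * (1 + ∑ S ∈ (nb G W x).powerset, D (W.erase x) S) := by
      unfold ZZ
      linarith
    calc |D W (insert x T)| * ZZ G F W x = |D W (insert x T) * ZZ G F W x| := by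
          rw [abs_mul, abs_of_nonneg hZ]
      _ ≤ |∑ S ∈ (nb G W x).powerset, D (W.erase x) (T ∪ S)| +
          |F W (insert x T) * (1 + ∑ S ∈ (nb G W x).powerset, D (W.erase x) S)| := by
          rw [h5]
          exact abs_sub _ _
      _ ≤ ∑ S ∈ (nb G W x).powerset, |D (W.erase x) (T ∪ S)| +
          F W (insert x T) * |1 + ∑ S ∈ (nb G W x).powerset, D (W.erase x) S| := by
          rw [abs_mul, abs_of_nonneg hF]
          exact add_le_add (Finset.abs_sum_le_sum_abs _ _) le_rfl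
      _ = _ := by ring
  · simp

end step

end Pool.Agent.DNS
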