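import Pool.Agent.SCP.Fin

set_option autoImplicit false
set_option linter.unusedSectionVars false

/-!
# Sums over the sets containing a vertex
-/

namespace Pool.Agent.DNS

open Pool.Agent.BCF Pool.Agent.SCP

variable {V : Type} [DecidableEq V]

/-- The subsets of a disjoint union. -/
theorem sum_union {R N : Finset V} (hd : Disjoint R N) (f : Finset V → ℝ) :
    ∑ U ∈ (R ∪ N).powerset, f U = ∑ T ∈ R.powerset, ∑ S ∈ N.powerset, f (T ∪ S) := by
  induction N using Finset.induction_on generalizing f with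
  | empty => simp
  | insert a N ha ih =>
    rw [Finset.disjoint_insert_right] at hd
    have h1 : R ∪ insert a N = insert a (R ∪ N) := Finset.union_insert _ _ _
    have h2 : a ∉ R ∪ N := by
      rw [Finset.mem_union]; push Not; exact ⟨hd.1, ha⟩
    rw [h1, Finset.sum_powerset_insert h2, ih hd.2 f, ih hd.2 (fun U => f (insert a U)),
      ← Finset.sum_add_distrib]
    refine Finset.sum_congr rfl fun T _ => ?_
    rw [Finset.sum_powerset_insert ha]
    congr 1
    refine Finset.sum_congr rfl fun S _ => ?_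
    rw [Finset.union_insert]

/-- The sum over the subsets of `M` containing `y`. -/
noncomputable def Ph (f : Finset V → ℝ) (M : Finset V) (y : V) : ℝ :=
  ∑ S ∈ M.powerset, if y ∈ S then f S else 0

/-- The sum over the subsets of `M` containing `x` and `y`. -/
noncomputable def Ph2 (f : Finset V → ℝ) (M : Finset V) (x y : V) : ℝ :=
  ∑ S ∈ M.powerset, if x ∈ S ∧ y ∈ S then f S else 0

theorem Ph2_symm (f : Finset V → ℝ) (M : Finset V) (x y : V) : Ph2 f M x y = Ph2 f M y x := by
  unfold Ph2
  refine Finset.sum_congr rfl fun S _ => ?_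
  simp only [and_comm]

theorem Ph_nonneg {f : Finset V → ℝ} {M : Finset V} (hf : ∀ S ⊆ M, 0 ≤ f S) (y : V) :
    0 ≤ Ph f M y := by
  unfold Ph
  refine Finset.sum_nonneg fun S hS => ?_
  rw [Finset.mem_powerset] at hS
  split_ifs
  · exact hf S hS
  · exact le_refl _

theorem Ph2_nonneg {f : Finset V → ℝ} {M : Finset V} (hf : ∀ S ⊆ M, 0 ≤ f S) (x y : V) :
    0 ≤ Ph2 f M x y := by
  unfold Ph2
  refine Finset.sum_nonneg fun S hS => ?_
  rw [Finset.mem_powerset] at hS
  split_ifs
  · exact hf S hS
  · exact le_refl _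

theorem Ph_insert (f : Finset V → ℝ) {M : Finset V} {y : V} (hy : y ∈ M) :
    Ph f M y = ∑ T ∈ (M.erase y).powerset, f (insert y T) := by
  unfold Ph
  conv_lhs => rw [← Finset.insert_erase hy]
  rw [Finset.sum_powerset_insert (Finset.notMem_erase y M)]
  have h1 : ∑ T ∈ (M.erase y).powerset, (if y ∈ T then f T else 0) = 0 := by
    refine Finset.sum_eq_zero fun T hT => ?_
    rw [if_neg]
    intro h
    exact Finset.notMem_erase y M (Finset.mem_powerset.mp hT h)
  rw [h1, zero_add]
  refine Finset.sum_congr rfl fun T _ => ?_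
  rw [if_pos (Finset.mem_insert_self _ _)]

theorem Ph2_insert (f : Finset V → ℝ) {M : Finset V} {x y : V} (hx : x ∈ M) (hxy : x ≠ y) :
    Ph2 f M x y = Ph (fun T => f (insert x T)) (M.erase x) y := by
  unfold Ph2 Ph
  conv_lhs => rw [← Finset.insert_erase hx]
  rw [Finset.sum_powerset_insert (Finset.notMem_erase x M)]
  have h1 : ∑ T ∈ (M.erase x).powerset, (if x ∈ T ∧ y ∈ T then f T else 0) = 0 := by
    refine Finset.sum_eq_zero fun T hT => ?_
    rw [if_neg]
    intro h
    exact Finset.notMem_erase x M (Finset.mem_powerset.mp hT h.1)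
  rw [h1, zero_add]
  refine Finset.sum_congr rfl fun T _ => ?_
  have h2 : (x ∈ insert x T ∧ y ∈ insert x T) ↔ y ∈ T := by
    rw [Finset.mem_insert, Finset.mem_insert]
    constructor
    · rintro ⟨_, h | h⟩
      · exact absurd h.symm hxy
      · exact h
    · intro h
      exact ⟨Or.inl rfl, Or.inr h⟩
  simp only [h2]

/-- The sum over the sets containing `y`, when the rest of the set is split. -/
theorem Ph_split (f : Finset V → ℝ) {R N : Finset V} {y : V} (hd : Disjoint R N) (hy : y ∉ N) :
    Ph f (R ∪ N) y =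
      ∑ T ∈ R.powerset, if y ∈ T then (∑ S ∈ N.powerset, f (T ∪ S)) else 0 := by
  unfold Ph
  rw [sum_union hd]
  refine Finset.sum_congr rfl fun T _ => ?_
  have h : ∀ S ∈ N.powerset, (if y ∈ T ∪ S then f (T ∪ S) else 0) =
      if y ∈ T then f (T ∪ S) else 0 := by
    intro S hS
    rw [Finset.mem_powerset] at hS
    have : y ∈ T ∪ S ↔ y ∈ T := by
      rw [Finset.mem_union]
      exact ⟨fun h => h.resolve_right fun h' => hy (hS h'), Or.inl⟩
    simp only [this]
  rw [Finset.sum_congr rfl h]
  split_ifs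
  · rfl
  · simp

/-- Only the sets disjoint from `N` count. -/
theorem Ph_restrict (f : Finset V → ℝ) {R N : Finset V} {y : V} (hd : Disjoint R N)
    (hy : y ∉ N) (h0 : ∀ T ⊆ R, ∀ S ⊆ N, S.Nonempty → f (T ∪ S) = 0) :
    Ph f (R ∪ N) y = Ph f R y := by
  rw [Ph_split f hd hy]
  unfold Ph
  refine Finset.sum_congr rfl fun T hT => ?_
  rw [Finset.mem_powerset] at hT
  split_ifs
  · rw [Finset.sum_eq_single ∅]
    · rw [Finset.union_empty]
    · intro S hS hne
      rw [Finset.mem_powerset] at hS
      exact h0 T hT S hS (Finset.nonempty_iff_ne_empty.mpr hne)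
    · intro h
      exact absurd (Finset.empty_mem_powerset _) h
  · rfl

section cover

variable {G : SimpleGraph V} [DecidableRel G.Adj]

/-- The vertices of `M` not adjacent to `y`. -/
def nn (G : SimpleGraph V) [DecidableRel G.Adj] (M : Finset V) (y : V) : Finset V :=
  M.filter fun z => z ≠ y ∧ ¬ G.Adj y z

theorem mem_nn {M : Finset V} {y z : V} : z ∈ nn G M y ↔ z ∈ M ∧ z ≠ y ∧ ¬ G.Adj y z := by
  unfold nn
  rw [Finset.mem_filter]

theorem cover {f : Finset V → ℝ} {M : Finset V} {y : V} (hf : ∀ S ⊆ M, 0 ≤ f S)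
    (he : ∀ S ⊆ M, ∀ a ∈ S, ∀ b ∈ S, G.Adj a b → f S = 0) (hy : y ∈ M) :
    Ph f M y ≤ f {y} + ∑ x ∈ nn G M y, Ph2 f M x y := by
  have h1 : ∀ S ∈ M.powerset, (if y ∈ S then f S else 0) ≤
      (if S = {y} then f {y} else 0) +
        ∑ x ∈ nn G M y, if x ∈ S ∧ y ∈ S then f S else 0 := by
    intro S hS
    rw [Finset.mem_powerset] at hS
    have hnn : 0 ≤ ∑ x ∈ nn G M y, if x ∈ S ∧ y ∈ S then f S else 0 := by
      refine Finset.sum_nonneg fun x _ => ?_
      split_ifs
      · exact hf S hS
      · exact le_refl _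
    have h0 : 0 ≤ (if S = {y} then f {y} else 0) := by
      split_ifs
      · exact hf {y} (by simpa using hy)
      · exact le_refl _
    by_cases hyS : y ∈ S
    · rw [if_pos hyS]
      by_cases hS1 : S = {y}
      · subst hS1
        rw [if_pos rfl]
        linarith
      · obtain ⟨x, hx, hxy⟩ : ∃ x ∈ S, x ≠ y := by
          by_contra hcon
          push Not at hcon
          apply hS1
          ext a
          rw [Finset.mem_singleton]
          exact ⟨fun h => hcon a h, fun h => h ▸ hyS⟩
        by_cases hadj : G.Adj y x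
        · rw [he S hS y hyS x hx hadj]
          simp only [ite_self, Finset.sum_const_zero, add_zero]
          exact h0
        · have hxn : x ∈ nn G M y := mem_nn.mpr ⟨hS hx, hxy, hadj⟩
          have h2 : f S ≤ ∑ x ∈ nn G M y, if x ∈ S ∧ y ∈ S then f S else 0 := by
            calc f S = (if x ∈ S ∧ y ∈ S then f S else 0) := by rw [if_pos ⟨hx, hyS⟩]
              _ ≤ _ := Finset.single_le_sum (f := fun x => if x ∈ S ∧ y ∈ S then f S else 0)
                (fun x _ => by
                  split_ifs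
                  · exact hf S hS
                  · exact le_refl _) hxn
          linarith
    · rw [if_neg hyS]
      linarith
  unfold Ph
  refine (Finset.sum_le_sum h1).trans ?_
  rw [Finset.sum_add_distrib, Finset.sum_ite_eq', if_pos
    (Finset.mem_powerset.mpr (by simpa using hy)), Finset.sum_comm]
  rfl

end cover

/-- The sum over all subsets, when the small sets do not count. -/
theorem sum_two_le {f : Finset V → ℝ} {M : Finset V} (hf : ∀ S ⊆ M, 0 ≤ f S)
    (h1 : ∀ S ⊆ M, S.card ≤ 1 → f S = 0) :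
    2 * ∑ S ∈ M.powerset, f S ≤ ∑ z ∈ M, Ph f M z := by
  unfold Ph
  rw [Finset.sum_comm, Finset.mul_sum]
  refine Finset.sum_le_sum fun S hS => ?_
  rw [Finset.mem_powerset] at hS
  rw [Finset.sum_ite_mem, Finset.inter_eq_right.mpr hS, Finset.sum_const, nsmul_eq_mul]
  by_cases hc : S.card ≤ 1
  · rw [h1 S hS hc]
    simp
  · have : (2 : ℝ) ≤ S.card := by
      have : 2 ≤ S.card := by omega
      exact_mod_cast this
    exact mul_le_mul_of_nonneg_right this (hf S hS)

/-- The sum over all subsets. -/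
theorem sum_one_le {f : Finset V → ℝ} {M : Finset V} (hf : ∀ S ⊆ M, 0 ≤ f S) :
    ∑ S ∈ M.powerset, f S ≤ f ∅ + ∑ z ∈ M, Ph f M z := by
  unfold Ph
  rw [Finset.sum_comm]
  have h1 : ∀ S ∈ M.powerset, f S ≤ (if S = ∅ then f ∅ else 0) +
      ∑ z ∈ M, if z ∈ S then f S else 0 := by
    intro S hS
    rw [Finset.mem_powerset] at hS
    rw [Finset.sum_ite_mem, Finset.inter_eq_right.mpr hS, Finset.sum_const, nsmul_eq_mul]
    by_cases hc : S = ∅
    · subst hc
      simp
    · rw [if_neg hc, zero_add]
      have : (1 : ℝ) ≤ S.card := by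
        have : 1 ≤ S.card := Finset.card_pos.mpr (Finset.nonempty_iff_ne_empty.mpr hc)
        exact_mod_cast this
      nlinarith [hf S hS]
  refine (Finset.sum_le_sum h1).trans ?_
  rw [Finset.sum_add_distrib, Finset.sum_ite_eq', if_pos (Finset.empty_mem_powerset _)]

theorem Ph_mono {f : Finset V → ℝ} {M N : Finset V} (hMN : M ⊆ N) (hf : ∀ S ⊆ N, 0 ≤ f S)
    (y : V) : Ph f M y ≤ Ph f N y := by
  unfold Ph
  refine Finset.sum_le_sum_of_subset_of_nonneg (Finset.powerset_mono.mpr hMN) ?_
  intro S hS _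
  rw [Finset.mem_powerset] at hS
  split_ifs
  · exact hf S hS
  · exact le_refl _

end Pool.Agent.DNS
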